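import Pool.Agent.V8.Defs

/-!
# V8, the top level: from the conditions at general positions to exactness, for a set of exponents

As Pool/Agent/V7/Top/Lin.lean, for a subset `A` of the exponents `Ex β (2 M - 1) k`.
-/

set_option autoImplicit false
set_option linter.unusedSectionVars false

namespace Pool.Agent.V8

open Finset Module MvPolynomial Pool.Agent.H51.TB Pool.Agent.V7 Pool.Agent.V7.Top

variable {ν : Type} [Fintype ν] [DecidableEq ν] {k c m : ℕ}

theorem GamA_hom (φ : (Fin k × Fin c) ⊕ Fin m ≃ ν) {M : ℕ} (hk : k + 1 = M) (β : ν → ℕ)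
    {A : Finset (ν → ℕ)} (hA : A ⊆ Pool.Agent.V7.Ex β (2 * M - 1) k)
    (f : {e // e ∈ A} → ℂ) (a : Fin k → Fin c) : (Gam φ f a).IsHomogeneous M := by
  rw [Gam_apply]
  refine IsHomogeneous.sum _ _ _ fun e _ => ?_
  split_ifs with h
  · apply isHomogeneous_monomial
    have h1 := (Pool.Agent.V7.mem_Ex.1 (hA e.2)).1
    rw [sum_split φ, h.sum] at h1
    rw [Finsupp.degree_eq_sum]
    simp only [zp_apply]
    omega
  · exact isHomogeneous_zero _ _ _

/-- The coefficients of the monomials of `x`-degree `k` vanish if the vector valued form does. -/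
theorem GamA_zero {φ : (Fin k × Fin c) ⊕ Fin m ≃ ν} {β : ν → ℕ} (hβ : IsB φ β) {d : ℕ}
    {A : Finset (ν → ℕ)} (hA : A ⊆ Pool.Agent.V7.Ex β d k)
    (f : {e // e ∈ A} → ℂ) (hf : Gam φ f = 0) (e : {e // e ∈ A})
    (he : ∑ s ∈ univ.filter (fun s => β s < k), e.1 s ≤ k) : f e = 0 := by
  classical
  have h1 : ∑ s ∈ univ.filter (fun s => β s < k), e.1 s = ∑ x, e.1 (φ (Sum.inl x)) := by
    rw [sum_filter, ← φ.sum_comp, Fintype.sum_sum_type]
    have h2 : ∑ t, (if β (φ (Sum.inr t)) < k then e.1 (φ (Sum.inr t)) else 0) = 0 := by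
      apply sum_eq_zero
      intro t _
      rw [if_neg]
      have := hβ.2 t
      omega
    rw [h2, add_zero]
    refine sum_congr rfl fun x _ => ?_
    rw [if_pos]
    rw [hβ.1 x]
    exact x.1.2
  rw [h1] at he
  obtain ⟨a, ha⟩ := exists_HasX hβ (hA e.2) he
  rw [← coeff_Gam φ f a e ha, hf]
  exact coeff_zero _

/-- Points of the type `range k` on the solutions at a fixed position of the other points. -/
theorem top_linA {φ : (Fin k × Fin c) ⊕ Fin m ≃ ν} {β : ν → ℕ} (hβ : IsB φ β) {M : ℕ}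
    (hk : k + 1 = M) (A : Finset (ν → ℕ)) (hA : A ⊆ Pool.Agent.V7.Ex β (2 * M - 1) k)
    {κ : Type} (rest : κ → Pool.Agent.V7.Kd) (p₀ : κ → ν ⊕ ν → ℂ)
    (hinj : ∀ f ∈ (LSA M β A).V rest p₀, Gam φ f = 0 → f = 0) (N₀ : ℕ)
    (h1 : (m + M - 1).choose M < N₀ + (m - (2 * c ^ k - 2) + M - 1).choose M)
    (h2 : ∀ F : Submodule ℂ ((Fin k → Fin c) → ℂ), F ≠ ⊥ → F ≠ ⊤ →
      finrank ℂ (SF φ ((LSA M β A).V rest p₀) F) + finrank ℂ F * (c ^ k - finrank ℂ F) <
        finrank ℂ F * N₀)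
    (h3 : c ^ k * (N₀ + 1) ≤ finrank ℂ ((LSA M β A).V rest p₀)) (N : ℕ) :
    (LSA M β A).gd (Sum.elim rest fun _ : Fin N => Pool.Agent.V7.Kd.ord M (range k)) ≤
      finrank ℂ ((LSA M β A).V rest p₀) - c ^ k * N := by
  classical
  let g : Fin (c ^ k) ≃ (Fin k → Fin c) := finFunctionFinEquiv.symm
  let L : ((Fin k → Fin c) → MvPolynomial (Fin m) ℂ) →ₗ[ℂ]
    (Fin (c ^ k) → MvPolynomial (Fin m) ℂ) := LinearMap.funLeft ℂ _ g
  let Q : ((Fin k → Fin c) → ℂ) ≃ₗ[ℂ] (Fin (c ^ k) → ℂ) := LinearEquiv.funCongrLeft ℂ ℂ g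
  refine assemble (LSA M β A) rest (Pool.Agent.V7.Kd.ord M (range k)) (M := M) (L ∘ₗ Gam φ)
    (fun f a => GamA_hom φ hk β hA f (g a)) (posz φ)
    (fun z f hf a => htop hβ hk z f hf (g a)) p₀ ?_ N₀ h1 ?_ h3 N
  · intro f hf h4
    refine hinj f hf (funext fun a => ?_)
    have h5 := congrFun h4 (g.symm a)
    have h6 : Gam φ f (g (g.symm a)) = 0 := h5
    rwa [g.apply_symm_apply] at h6
  · intro F' hF' hF''
    set F : Submodule ℂ ((Fin k → Fin c) → ℂ) := F'.comap Q.toLinearMap with hF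
    have hfr : finrank ℂ F = finrank ℂ F' := by
      have h4 : F.map Q.toLinearMap = F' :=
        Submodule.map_comap_eq_self (by
          rw [LinearMap.range_eq_top.2 Q.surjective]
          exact le_top)
      rw [← h4]
      exact (LinearEquiv.finrank_map_eq Q F).symm
    have hb : F ≠ ⊥ := by
      intro h
      rw [h, finrank_bot] at hfr
      exact hF' (Submodule.finrank_eq_zero.1 hfr.symm)
    have ht : F ≠ ⊤ := by
      intro h
      apply hF''
      rw [eq_top_iff]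
      intro y _
      have h4 : Q.symm y ∈ F := by
        rw [h]
        trivial
      have h5 : Q (Q.symm y) ∈ F' := h4
      rwa [Q.apply_symm_apply] at h5
    have h4 := h2 F hb ht
    rw [hfr] at h4
    refine lt_of_le_of_lt ?_ h4
    gcongr
    refine le_trans ?_ (Submodule.finrank_map_le (L ∘ₗ Gam φ) _)
    refine Submodule.finrank_mono ?_
    rintro G ⟨⟨f, hf, rfl⟩, h5⟩
    refine ⟨f, ⟨hf, fun α => ?_⟩, rfl⟩
    exact h5 α

open Topology in
/-- T1. The same with conditions at general positions and near one position. -/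
theorem top_genA {ν : Type} [Fintype ν] [DecidableEq ν] {k c m : ℕ}
    {φ : (Fin k × Fin c) ⊕ Fin m ≃ ν} {β : ν → ℕ} (hβ : Top.IsB φ β) {M : ℕ}
    (hk : k + 1 = M) (A : Finset (ν → ℕ)) (hA : A ⊆ Ex β (2 * M - 1) k)
    {κ : Type} [Fintype κ] (rest : κ → Kd)
    (hG : Gn κ (ν ⊕ ν) fun p => ∀ f ∈ (LSA M β A).V rest p,
      (∀ e : {e // e ∈ A}, ∑ s ∈ univ.filter (fun s => β s < k), e.1 s ≤ k → f e = 0) → f = 0)
    (N₀ : ℕ)
    (h1 : (m + M - 1).choose M < N₀ + (m - (2 * c ^ k - 2) + M - 1).choose M)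
    (h2 : ∃ p₁ : κ → ν ⊕ ν → ℂ, ∀ᶠ p in 𝓝 p₁, ∀ F : Submodule ℂ ((Fin k → Fin c) → ℂ),
      F ≠ ⊥ → F ≠ ⊤ → finrank ℂ (Top.SF φ ((LSA M β A).V rest p) F) +
        finrank ℂ F * (c ^ k - finrank ℂ F) < finrank ℂ F * N₀)
    (h3 : c ^ k * (N₀ + 1) ≤ (LSA M β A).gd rest) (N : ℕ) :
    (LSA M β A).gd (Sum.elim rest fun _ : Fin N => Kd.ord M (range k)) ≤
      (LSA M β A).gd rest - c ^ k * N := by
  obtain ⟨p₁, hp₁⟩ := h2
  have h4 := hG.and (gn_gd (LSA M β A) rest)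
  obtain ⟨p, hp, hp1, hp2⟩ := Pool.Agent.V7.BE.Gn.near h4 p₁ _ hp₁
  rw [← hp2] at h3 ⊢
  refine top_linA hβ hk A hA rest p ?_ N₀ h1 hp h3 N
  intro f hf hf0
  exact hp1 f hf fun e he => GamA_zero hβ hA f hf0 e he

end Pool.Agent.V8
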