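import Pool.Agent.V8.Defs

/-!
# V8, T2 and T3: GAMMA and BETA for the bounded exponents

The solutions with the exponents `A ⊆ A'` are solutions with the exponents `A'` (extension by `0`).
-/

set_option autoImplicit false
set_option linter.unusedSectionVars false

namespace Pool.Agent.V8

open Finset Module MvPolynomial Pool.Agent.H51.TB Pool.Agent.V7 Pool.Agent.V7.ST
  Pool.Agent.H54.V7 Topology

section Ext

variable {ν : Type} [Fintype ν] [DecidableEq ν]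

/-- Extension by zero. -/
noncomputable def ext0 (A A' : Finset (ν → ℕ)) : ({e // e ∈ A} → ℂ) →ₗ[ℂ] ({e // e ∈ A'} → ℂ) where
  toFun f e := if h : e.1 ∈ A then f ⟨e.1, h⟩ else 0
  map_add' f f' := by
    funext e
    by_cases h : e.1 ∈ A
    · simp [h]
    · simp [h]
  map_smul' x f := by
    funext e
    by_cases h : e.1 ∈ A
    · simp [h]
    · simp [h]

theorem ext0_mem {A A' : Finset (ν → ℕ)} (f : {e // e ∈ A} → ℂ) {e : {e // e ∈ A'}}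
    (h : e.1 ∈ A) : ext0 A A' f e = f ⟨e.1, h⟩ := by
  show (if h : e.1 ∈ A then f ⟨e.1, h⟩ else 0) = _
  rw [dif_pos h]

theorem ext0_not {A A' : Finset (ν → ℕ)} (f : {e // e ∈ A} → ℂ) {e : {e // e ∈ A'}}
    (h : e.1 ∉ A) : ext0 A A' f e = 0 := by
  show (if h : e.1 ∈ A then f ⟨e.1, h⟩ else 0) = _
  rw [dif_neg h]

theorem ext0_inj {A A' : Finset (ν → ℕ)} (hA : A ⊆ A') : Function.Injective (ext0 A A') := by
  intro f f' h
  funext e
  have h1 := congrFun h (⟨e.1, hA e.2⟩ : {e // e ∈ A'})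
  rw [ext0_mem f (e := ⟨e.1, hA e.2⟩) e.2, ext0_mem f' (e := ⟨e.1, hA e.2⟩) e.2] at h1
  exact h1

/-- Sums over the exponents. -/
theorem sum_ext0 {A A' : Finset (ν → ℕ)} (hA : A ⊆ A') {R : Type} [AddCommMonoid R]
    (f : {e // e ∈ A} → ℂ) (g : (ν → ℕ) → ℂ → R) (hg : ∀ e, g e 0 = 0) :
    ∑ e : {e // e ∈ A'}, g e.1 (ext0 A A' f e) = ∑ e : {e // e ∈ A}, g e.1 (f e) := by
  classical
  symm
  refine sum_of_injOn (fun e : {e // e ∈ A} => (⟨e.1, hA e.2⟩ : {e // e ∈ A'})) ?_ ?_ ?_ ?_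
  · intro e _ e' _ h
    exact Subtype.ext (congrArg (fun x : {e // e ∈ A'} => x.1) h)
  · intro e _
    exact mem_coe.2 (mem_univ _)
  · intro e _ h
    have h1 : e.1 ∉ A := by
      intro h1
      exact h ⟨⟨e.1, h1⟩, mem_coe.2 (mem_univ _), rfl⟩
    rw [ext0_not f h1, hg]
  · intro e _
    show g e.1 (f e) = g e.1 (ext0 A A' f ⟨e.1, hA e.2⟩)
    rw [ext0_mem f (e := ⟨e.1, hA e.2⟩) e.2]

/-- Solutions with fewer exponents are solutions. -/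
theorem ext0_V {M : ℕ} {β : ν → ℕ} {A A' : Finset (ν → ℕ)} (hA : A ⊆ A') {κ : Type}
    (rest : κ → Kd) (p : κ → ν ⊕ ν → ℂ) {f : {e // e ∈ A} → ℂ}
    (hf : f ∈ (LSA M β A).V rest p) : ext0 A A' f ∈ (LSA M β A').V rest p := by
  rw [Sys.mem_V] at hf ⊢
  intro i r
  rw [← hf i r]
  exact sum_ext0 hA f (fun e x => eval (p i) (cof M β (rest i) r e) * x) fun e => mul_zero _

theorem Gam_ext0 {k c m : ℕ} (φ : (Fin k × Fin c) ⊕ Fin m ≃ ν) {A A' : Finset (ν → ℕ)}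
    (hA : A ⊆ A') (f : {e // e ∈ A} → ℂ) (a : Fin k → Fin c) :
    Top.Gam φ (ext0 A A' f) a = Top.Gam φ f a := by
  rw [Top.Gam_apply, Top.Gam_apply]
  refine sum_ext0 hA f (fun e x => if Top.HasX φ a e then monomial (Top.zp φ e) x else 0)
    fun e => ?_
  split_ifs
  · rw [map_zero]
  · rfl

theorem ext0_SF {k c m : ℕ} (φ : (Fin k × Fin c) ⊕ Fin m ≃ ν) {M : ℕ} {β : ν → ℕ}
    {A A' : Finset (ν → ℕ)} (hA : A ⊆ A') {κ : Type} (rest : κ → Kd) (p : κ → ν ⊕ ν → ℂ)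
    (F : Submodule ℂ ((Fin k → Fin c) → ℂ)) {f : {e // e ∈ A} → ℂ}
    (hf : f ∈ Top.SF φ ((LSA M β A).V rest p) F) :
    ext0 A A' f ∈ Top.SF φ ((LSA M β A').V rest p) F := by
  rw [Top.mem_SF_coeff] at hf ⊢
  refine ⟨ext0_V hA rest p hf.1, fun α => ?_⟩
  have h1 : (fun a => coeff α (Top.Gam φ (ext0 A A' f) a)) =
      fun a => coeff α (Top.Gam φ f a) := by
    funext a
    rw [Gam_ext0 φ hA]
  rw [h1]
  exact hf.2 α

/-- The dimensions. -/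
theorem finrank_SF_le {k c m : ℕ} (φ : (Fin k × Fin c) ⊕ Fin m ≃ ν) {M : ℕ} {β : ν → ℕ}
    {A A' : Finset (ν → ℕ)} (hA : A ⊆ A') {κ : Type} (rest : κ → Kd) (p : κ → ν ⊕ ν → ℂ)
    (F : Submodule ℂ ((Fin k → Fin c) → ℂ)) :
    finrank ℂ (Top.SF φ ((LSA M β A).V rest p) F) ≤
      finrank ℂ (Top.SF φ ((LSA M β A').V rest p) F) := by
  refine LinearMap.finrank_le_finrank_of_injective
    (f := (ext0 A A').restrict (p := Top.SF φ ((LSA M β A).V rest p) F)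
      (q := Top.SF φ ((LSA M β A').V rest p) F) fun f hf => ext0_SF φ hA rest p F hf) ?_
  intro f f' h
  refine Subtype.ext (ext0_inj hA ?_)
  exact congrArg Subtype.val h

end Ext

variable {K : ℕ}

theorem ExB_sub (B : Finset (Fin K → ℕ)) (c n d j : ℕ) : ExB B c n d j ⊆ Ex (blk c n) d j :=
  filter_subset _ _

/-- T2: GAMMA for the bounded exponents. -/
theorem gammaB (B : Finset (Fin K → ℕ)) (M c k : ℕ) (hG : GAMMA M c k) :
    ∃ e : ℝ, 0 < e ∧ ∃ n₀ : ℕ, ∀ n : ℕ, n₀ ≤ n → ∀ (κ : Type) [Fintype κ] (rest : κ → Kd),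
      Cls0 M c k n e (fun τ => ((univ : Finset κ).val.map rest).count τ) →
      Gn κ (Fin n ⊕ Fin n) fun p => ∀ f ∈ (LSB B M c n k).V rest p,
        (∀ a : {a // a ∈ ExB B c n (2 * M - 1) k},
          ∑ s ∈ univ.filter (fun s => blk c n s < k), a.1 s ≤ k → f a = 0) → f = 0 := by
  obtain ⟨e, he, n₀, h⟩ := hG
  refine ⟨e, he, n₀, fun n hn κ _ rest hr => ?_⟩
  obtain ⟨G, hG0, hG⟩ := h n hn κ rest hr
  refine ⟨G, hG0, fun p hp f hf hf0 => ?_⟩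
  have h1 := hG p hp (ext0 _ _ f) (ext0_V (ExB_sub B c n (2 * M - 1) k) rest p hf) fun a ha => by
    by_cases h2 : a.1 ∈ ExB B c n (2 * M - 1) k
    · rw [ext0_mem f h2]
      exact hf0 ⟨a.1, h2⟩ ha
    · exact ext0_not f h2
  refine ext0_inj (ExB_sub B c n (2 * M - 1) k) ?_
  rw [h1, map_zero]

/-- T3: BETA for the bounded exponents. -/
theorem betaB (B : Finset (Fin K → ℕ)) (M c k : ℕ) (hB : BETA M c k) :
    ∃ δ : ℝ, 0 < δ ∧ ∃ e : ℝ, 0 < e ∧ ∃ n₀ : ℕ, ∀ n : ℕ, n₀ ≤ n →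
    ∀ (m : ℕ) (φ : (Fin k × Fin c) ⊕ Fin m ≃ Fin n), Top.IsB φ (blk c n) →
    ∀ (κ : Type) [Fintype κ] (rest : κ → Kd),
    Cls0 M c k n e (fun τ => ((univ : Finset κ).val.map rest).count τ) →
    (∀ i, rest i ≠ Kd.ord M (range k)) →
    ∃ p₁ : κ → Fin n ⊕ Fin n → ℂ, ∀ᶠ p in 𝓝 p₁, ∀ F : Submodule ℂ ((Fin k → Fin c) → ℂ),
      F ≠ ⊥ → F ≠ ⊤ → (finrank ℂ (Top.SF φ ((LSB B M c n k).V rest p) F) : ℝ) ≤
        (1 - δ) * finrank ℂ F *
          ((n : ℝ) ^ M / (((2 * M - 1).choose M : ℝ) * (M.factorial : ℝ))) := by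
  obtain ⟨δ, hδ, e, he, n₀, h⟩ := hB
  refine ⟨δ, hδ, e, he, n₀, fun n hn m φ hφ κ _ rest hr hk => ?_⟩
  obtain ⟨p₁, hp₁⟩ := h n hn m φ hφ κ rest hr hk
  refine ⟨p₁, hp₁.mono fun p hp F hF0 hF1 => ?_⟩
  refine le_trans ?_ (hp F hF0 hF1)
  exact_mod_cast finrank_SF_le φ (ExB_sub B c n (2 * M - 1) k) rest p F

end Pool.Agent.V8
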